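import Pool.Agent.Q287.BA.Tz2

/-!
# The isomorphism problem for a class of groups: bounded advice does not help, even with errors

Let `C` be a class of groups that is closed under isomorphism, for instance the hierarchically
hyperbolic groups. Suppose that there are `k` algorithms (which need not halt always) such that for
all numbers `n` of generators, `m` of relators and all lengths `L` one of them solves the isomorphism
problem for `C` with relatively few errors: for each second presentation it may fail (not halt or give
the wrong answer) for `M ^ (1 - 1 / q)` of the about `M` first presentations with `n` generators and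
`m` relators of length at most `L`, up to a computable factor. Which of the algorithms is the good one
may depend on `n`, `m` and `L` in an arbitrary, non-computable way. Then the isomorphism problem for
`C` is solvable. The same holds for all questions on groups of the class, with parameters, that are
invariant under isomorphism.

The reason: trivial relators, and new generators `t` with relators `t⁻¹ w`, do not change the group,
and there are more presentations of this kind than there are errors. The majority gives for all sizes
`k` candidates for the answers, which need not halt, and one of them is right for all small inputs. At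
first one chooses a finite set of inputs for which the number of the candidates that halt is the least
possible one for all large sizes, so that it is known for infinitely many sizes which candidates halt.
Then one adds inputs for which the right candidates still disagree on a further input. This comes to
an end after at most `k` steps, and then for every input the right candidates agree for some sizes.
-/

set_option autoImplicit false

namespace Pool.Agent.Results.MP_32d917_al.BoundedAdvice

open Pool.Agent.Q324.SC.Tz

/-- The class of groups `C` is closed under isomorphism. -/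
def IsoClosed (C : (G : Type) → [Group G] → Prop) : Prop :=
  ∀ (G H : Type) [Group G] [Group H], Nonempty (G ≃* H) → C G → C H

/-- The isomorphism problem for the class `C` is solvable: some algorithm halts for any two finite
presentations of groups in `C` and decides whether the groups are isomorphic. -/
def Solvable (C : (G : Type) → [Group G] → Prop) : Prop :=
  ∃ g : Pres × Pres →. Bool, Partrec g ∧ ∀ p p', Ok p → Ok p' → C (Grp p) → C (Grp p') →
    ∃ b ∈ g (p, p'), (b = true ↔ Nonempty (Grp p ≃* Grp p'))

/-- The presentations `p` of groups in `C` with `n` generators and `m` relators of length at most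
`L` for which `f (p, y)` does not halt or is the wrong answer, if `y` also presents a group
in `C`. -/
def ErrorsFor (C : (G : Type) → [Group G] → Prop) (f : Pres × Pres →. Bool) (y : Pres)
    (n m L : ℕ) : Set Pres :=
  {p | p ∈ Box n m L ∧ (Ok y ∧ C (Grp p) ∧ C (Grp y)) ∧
    ¬ ∃ b ∈ f (p, y), (b = true ↔ Nonempty (Grp p ≃* Grp y))}

/-- The question `Q y G` on groups `G` with a parameter `y` is invariant under isomorphism. -/
def Invariant {α : Type} (Q : α → (G : Type) → [Group G] → Prop) : Prop :=
  ∀ (y : α) (G H : Type) [Group G] [Group H], Nonempty (G ≃* H) → (Q y G ↔ Q y H)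

/-- Some algorithm halts for all `y` and all finite presentations of groups in `C` and gives the
right answer to the question `Q y`. -/
def SolvableQ {α : Type} [Primcodable α] (C : (G : Type) → [Group G] → Prop)
    (Q : α → (G : Type) → [Group G] → Prop) : Prop :=
  ∃ g : α × Pres →. Bool, Partrec g ∧ ∀ y p, Ok p → C (Grp p) →
    ∃ b ∈ g (y, p), (b = true ↔ Q y (Grp p))

/-- The presentations `p` of groups in `C` with `n` generators and `m` relators of length at most
`L` for which `f (y, p)` does not halt or is the wrong answer to the question `Q y`. -/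
def Wrong {α : Type} (C : (G : Type) → [Group G] → Prop) (Q : α → (G : Type) → [Group G] → Prop)
    (f : α × Pres →. Bool) (y : α) (n m L : ℕ) : Set Pres :=
  {p | p ∈ Box n m L ∧ C (Grp p) ∧ ¬ ∃ b ∈ f (y, p), (b = true ↔ Q y (Grp p))}

/-- For every class `C` of groups that is closed under isomorphism and every `q ≥ 1`:
(1) the isomorphism problem for `C` is solvable if and only if there are a number `k`, partial
recursive `f (0, ·), …, f (k - 1, ·)` and a computable `K` such that for all `n`, `m`, `L` there is
`i < k` such that for all presentations `y` the number `E` of the errors of `f (i, ·)` with second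
member `y` satisfies `E ^ q ≤ K (y, n, m) (2 n) ^ ((q - 1) m L)`; (2) the analogue holds for every
question on the groups in `C` with a parameter that is invariant under isomorphism. -/
theorem result (C : (G : Type) → [Group G] → Prop) (hC : IsoClosed C) (q : ℕ) (hq : 1 ≤ q) :
    (Solvable C ↔ ∃ (k : ℕ) (f : ℕ × Pres × Pres →. Bool) (K : Pres × ℕ × ℕ → ℕ),
      Partrec f ∧ Computable K ∧ ∀ n m L : ℕ, ∃ i < k, ∀ y : Pres,
        (ErrorsFor C (fun x => f (i, x)) y n m L).encard ^ q ≤
          ((K (y, n, m) * (2 * n) ^ ((q - 1) * m * L) : ℕ) : ℕ∞)) ∧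
    ∀ (α : Type) [Primcodable α] (Q : α → (G : Type) → [Group G] → Prop), Invariant Q →
      (SolvableQ C Q ↔ ∃ (k : ℕ) (f : ℕ × α × Pres →. Bool) (K : α × ℕ × ℕ → ℕ),
        Partrec f ∧ Computable K ∧ ∀ n m L : ℕ, ∃ i < k, ∀ y : α,
          (Wrong C Q (fun x => f (i, x)) y n m L).encard ^ q ≤
            ((K (y, n, m) * (2 * n) ^ ((q - 1) * m * L) : ℕ) : ℕ∞)) := by
  obtain ⟨r, rfl⟩ : ∃ r, q = r + 1 := ⟨q - 1, by omega⟩
  rw [Nat.add_sub_cancel]
  refine ⟨⟨?_, ?_⟩, fun α _ Q hQ => ⟨?_, ?_⟩⟩
  · rintro ⟨g, hg, h⟩
    refine ⟨1, fun x => g x.2, fun _ => 0, hg.comp Computable.snd, Computable.const 0,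
      fun n m L => ⟨0, Nat.one_pos, fun y => ?_⟩⟩
    have h1 : ErrorsFor C (fun x => g x) y n m L = ∅ := by
      ext x
      simp only [ErrorsFor, Set.mem_ofPred_eq, Set.mem_empty_iff_false, iff_false]
      rintro ⟨h1, h3, h4⟩
      exact h4 (h x y h1.1 h3.1 h3.2.1 h3.2.2)
    rw [h1, Set.encard_empty, zero_pow (by omega)]
    exact zero_le
  · rintro ⟨k, f, K, hf, hK, h⟩
    have hA : Partrec (fun x : ℕ × Pres × Pres => f (x.1, x.2.2, x.2.1)) :=
      hf.comp (Computable.fst.pair ((Computable.snd.comp Computable.snd).pair
        (Computable.fst.comp Computable.snd)))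
    obtain ⟨D, hD, hD2⟩ := Pool.Agent.Q287.BA.Tz.advicep (α := Pres) k r hA hK
      (Pr := fun y p => Ok y ∧ C (Grp p) ∧ C (Grp y)) (Q := fun y p => Nonempty (Grp p ≃* Grp y))
      (fun y p t ⟨e⟩ h1 => ⟨h1.1, hC _ _ ⟨e.symm⟩ h1.2.1, h1.2.2⟩)
      (fun y p t ⟨e⟩ => ⟨fun ⟨g⟩ => ⟨e.symm.trans g⟩, fun ⟨g⟩ => ⟨e.trans g⟩⟩)
      (fun n m L => h n m L)
    refine ⟨fun x => D (x.2, x.1), hD.comp (Computable.snd.pair Computable.fst), ?_⟩
    intro p p' h1 h2 h3 h4
    obtain ⟨b, hb, hb2⟩ := hD2 (p', p) ⟨h1, h2, h3, h4⟩
    exact ⟨b, Part.eq_some_iff.1 hb, hb2⟩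
  · rintro ⟨g, hg, h⟩
    refine ⟨1, fun x => g x.2, fun _ => 0, hg.comp Computable.snd, Computable.const 0,
      fun n m L => ⟨0, Nat.one_pos, fun y => ?_⟩⟩
    have h1 : Wrong C Q (fun x => g x) y n m L = ∅ := by
      ext x
      simp only [Wrong, Set.mem_ofPred_eq, Set.mem_empty_iff_false, iff_false]
      rintro ⟨h1, h3, h4⟩
      exact h4 (h y x h1.1 h3)
    rw [h1, Set.encard_empty, zero_pow (by omega)]
    exact zero_le
  · rintro ⟨k, f, K, hf, hK, h⟩
    obtain ⟨D, hD, hD2⟩ := Pool.Agent.Q287.BA.Tz.advicep (α := α) k r hf hK
      (Pr := fun _ p => C (Grp p)) (Q := fun y p => Q y (Grp p))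
      (fun y p t ⟨e⟩ h1 => hC _ _ ⟨e.symm⟩ h1)
      (fun y p t e => hQ y _ _ e)
      (fun n m L => h n m L)
    refine ⟨D, hD, fun y p h1 h2 => ?_⟩
    obtain ⟨b, hb, hb2⟩ := hD2 (y, p) ⟨h1, h2⟩
    exact ⟨b, Part.eq_some_iff.1 hb, hb2⟩

end Pool.Agent.Results.MP_32d917_al.BoundedAdvice
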