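import Mathlib
import Pool.Agent.Q324.SC.TietzePairs

/-!
# The isomorphism problem: few errors suffice

For every class of groups that is closed under isomorphism (for instance the hierarchically
hyperbolic groups) it is shown that the isomorphism problem for finite presentations of groups of
the class is solvable as soon as some computable function solves it with relatively few errors: of
the `M` pairs of a given size (or of the `M` first presentations of a given size, for each second
presentation) it may err on `M ^ (1 - 1 / q)`, for an arbitrary fixed `q`. The same holds for all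
questions on groups of the class that are invariant under isomorphism.

The reason: new generators `t` and relators `t⁻¹ w` do not change the group, and there are more
presentations of this kind than there are errors. The majority gives the answer.
-/

set_option autoImplicit false

namespace Pool.Agent.Results.MP_32d917_al.WorstCaseFromMostPresentations

open Pool.Agent.Q324.SC.Tz

/-- The class of groups `C` is closed under isomorphism. -/
def IsoClosed (C : (G : Type) → [Group G] → Prop) : Prop :=
  ∀ (G H : Type) [Group G] [Group H], Nonempty (G ≃* H) → C G → C H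

/-- The isomorphism problem for the class `C` is solvable: some computable function decides, for any
two finite presentations of groups in `C`, whether the groups are isomorphic. -/
def Solvable (C : (G : Type) → [Group G] → Prop) : Prop :=
  ∃ f : Pres × Pres → Bool, Computable f ∧ ∀ p p', Ok p → Ok p' → C (Grp p) → C (Grp p') →
    (f (p, p') = true ↔ Nonempty (Grp p ≃* Grp p'))

/-- The pairs of presentations of groups in `C`, the first with `n` generators and `m` relators of
length at most `L`, the second with `n'` generators and `m'` relators of length at most `L'`, for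
which `f` gives the wrong answer. -/
def Errors (C : (G : Type) → [Group G] → Prop) (f : Pres × Pres → Bool) (n m L n' m' L' : ℕ) :
    Set (Pres × Pres) :=
  {x | x.1 ∈ Box n m L ∧ x.2 ∈ Box n' m' L' ∧ (C (Grp x.1) ∧ C (Grp x.2)) ∧
    ¬ (f x = true ↔ Nonempty (Grp x.1 ≃* Grp x.2))}

/-- The presentations `p` of groups in `C` with `n` generators and `m` relators of length at most
`L` for which `f (p, y)` is the wrong answer, if `y` also presents a group in `C`. -/
def ErrorsFor (C : (G : Type) → [Group G] → Prop) (f : Pres × Pres → Bool) (y : Pres)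
    (n m L : ℕ) : Set Pres :=
  {p | p ∈ Box n m L ∧ (Ok y ∧ C (Grp p) ∧ C (Grp y)) ∧
    ¬ (f (p, y) = true ↔ Nonempty (Grp p ≃* Grp y))}

/-- The question `Q y G` on groups `G` with a parameter `y` is invariant under isomorphism. -/
def Invariant {α : Type} (Q : α → (G : Type) → [Group G] → Prop) : Prop :=
  ∀ (y : α) (G H : Type) [Group G] [Group H], Nonempty (G ≃* H) → (Q y G ↔ Q y H)

/-- The presentations `p` of groups in `C` with `n` generators and `m` relators of length at most
`L` for which `f (y, p)` is the wrong answer to the question `Q y`. -/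
def Wrong {α : Type} (C : (G : Type) → [Group G] → Prop) (Q : α → (G : Type) → [Group G] → Prop)
    (f : α × Pres → Bool) (y : α) (n m L : ℕ) : Set Pres :=
  {p | p ∈ Box n m L ∧ C (Grp p) ∧ ¬ (f (y, p) = true ↔ Q y (Grp p))}

/-- For every class `C` of groups that is closed under isomorphism and every `q ≥ 1`: the
isomorphism problem for `C` is solvable if and only if (1) some computable function solves it with
`E` errors among the pairs of given sizes, where
`E ^ q ≤ K ((n, m), (n', m')) (2 n) ^ ((q - 1) m L) (2 n') ^ ((q - 1) m' L')` for a computable `K`;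
if and only if (2) some computable function solves it with `E` errors for each presentation `y` as
second member, where `E ^ q ≤ K (y, n, m) (2 n) ^ ((q - 1) m L)` for a computable `K`;
(3) the analogue of (2) holds for every question on the groups in `C` with a parameter that is
invariant under isomorphism. -/
theorem result (C : (G : Type) → [Group G] → Prop) (hC : IsoClosed C) (q : ℕ) (hq : 1 ≤ q) :
    (Solvable C ↔ ∃ (f : Pres × Pres → Bool) (K : (ℕ × ℕ) × (ℕ × ℕ) → ℕ),
      Computable f ∧ Computable K ∧ ∀ n m L n' m' L' : ℕ,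
        (Errors C f n m L n' m' L').encard ^ q ≤
          ((K ((n, m), (n', m')) * (2 * n) ^ ((q - 1) * m * L)
            * (2 * n') ^ ((q - 1) * m' * L') : ℕ) : ℕ∞)) ∧
    (Solvable C ↔ ∃ (f : Pres × Pres → Bool) (K : Pres × ℕ × ℕ → ℕ),
      Computable f ∧ Computable K ∧ ∀ (y : Pres) (n m L : ℕ),
        (ErrorsFor C f y n m L).encard ^ q ≤
          ((K (y, n, m) * (2 * n) ^ ((q - 1) * m * L) : ℕ) : ℕ∞)) ∧
    ∀ (α : Type) [Primcodable α] (Q : α → (G : Type) → [Group G] → Prop), Invariant Q →
      ((∃ f : α × Pres → Bool, Computable f ∧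
          ∀ y p, Ok p → C (Grp p) → (f (y, p) = true ↔ Q y (Grp p))) ↔
        ∃ (f : α × Pres → Bool) (K : α × ℕ × ℕ → ℕ), Computable f ∧ Computable K ∧
          ∀ (y : α) (n m L : ℕ), (Wrong C Q f y n m L).encard ^ q ≤
            ((K (y, n, m) * (2 * n) ^ ((q - 1) * m * L) : ℕ) : ℕ∞)) := by
  obtain ⟨r, rfl⟩ : ∃ r, q = r + 1 := ⟨q - 1, by omega⟩
  rw [Nat.add_sub_cancel]
  refine ⟨⟨?_, ?_⟩, ⟨?_, ?_⟩, fun α _ Q hQ => ⟨?_, ?_⟩⟩
  · rintro ⟨f, hf, h⟩
    refine ⟨f, fun _ => 0, hf, Computable.const 0, fun n m L n' m' L' => ?_⟩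
    have h1 : Errors C f n m L n' m' L' = ∅ := by
      ext x
      simp only [Errors, Set.mem_setOf_eq, Set.mem_empty_iff_false, iff_false]
      rintro ⟨h1, h2, h3, h4⟩
      exact h4 (h x.1 x.2 h1.1 h2.1 h3.1 h3.2)
    rw [h1, Set.encard_empty, zero_pow (by omega)]
    exact zero_le
  · rintro ⟨f, K, hf, hK, h⟩
    obtain ⟨D, hD, hD2⟩ := correct2 (A := f) (K := K) r hf hK
      (Pr := fun p p' => C (Grp p) ∧ C (Grp p')) (Q := fun p p' => Nonempty (Grp p ≃* Grp p'))
      (fun p t p' t' ⟨e⟩ ⟨e'⟩ h1 => ⟨hC _ _ ⟨e.symm⟩ h1.1, hC _ _ ⟨e'.symm⟩ h1.2⟩)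
      (fun p t p' t' ⟨e⟩ ⟨e'⟩ => ⟨fun ⟨g⟩ => ⟨(e.symm.trans g).trans e'⟩,
        fun ⟨g⟩ => ⟨(e.trans g).trans e'.symm⟩⟩)
      (fun n m L n' m' L' => h n m L n' m' L')
    exact ⟨D, hD, fun p p' h1 h2 h3 h4 => hD2 p p' h1 h2 ⟨h3, h4⟩⟩
  · rintro ⟨f, hf, h⟩
    refine ⟨f, fun _ => 0, hf, Computable.const 0, fun y n m L => ?_⟩
    have h1 : ErrorsFor C f y n m L = ∅ := by
      ext x
      simp only [ErrorsFor, Set.mem_setOf_eq, Set.mem_empty_iff_false, iff_false]
      rintro ⟨h1, h3, h4⟩
      exact h4 (h x y h1.1 h3.1 h3.2.1 h3.2.2)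
    rw [h1, Set.encard_empty, zero_pow (by omega)]
    exact zero_le
  · rintro ⟨f, K, hf, hK, h⟩
    have hA : Computable (fun x : Pres × Pres => f (x.2, x.1)) :=
      hf.comp (Computable.snd.pair Computable.fst)
    obtain ⟨D, hD, hD2⟩ := correct (α := Pres) (A := fun x => f (x.2, x.1)) (K := K) r hA hK
      (Pr := fun y p => Ok y ∧ C (Grp p) ∧ C (Grp y)) (Q := fun y p => Nonempty (Grp p ≃* Grp y))
      (fun y p t ⟨e⟩ h1 => ⟨h1.1, hC _ _ ⟨e.symm⟩ h1.2.1, h1.2.2⟩)
      (fun y p t ⟨e⟩ => ⟨fun ⟨g⟩ => ⟨e.symm.trans g⟩, fun ⟨g⟩ => ⟨e.trans g⟩⟩)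
      (fun y n m L => h y n m L)
    refine ⟨fun x => D (x.2, x.1), hD.comp (Computable.snd.pair Computable.fst), ?_⟩
    intro p p' h1 h2 h3 h4
    exact hD2 p' p h1 ⟨h2, h3, h4⟩
  · rintro ⟨f, hf, h⟩
    refine ⟨f, fun _ => 0, hf, Computable.const 0, fun y n m L => ?_⟩
    have h1 : Wrong C Q f y n m L = ∅ := by
      ext x
      simp only [Wrong, Set.mem_setOf_eq, Set.mem_empty_iff_false, iff_false]
      rintro ⟨h1, h3, h4⟩
      exact h4 (h y x h1.1 h3)
    rw [h1, Set.encard_empty, zero_pow (by omega)]
    exact zero_le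
  · rintro ⟨f, K, hf, hK, h⟩
    obtain ⟨D, hD, hD2⟩ := correct (α := α) (A := f) (K := K) r hf hK
      (Pr := fun _ p => C (Grp p)) (Q := fun y p => Q y (Grp p))
      (fun y p t ⟨e⟩ h1 => hC _ _ ⟨e.symm⟩ h1)
      (fun y p t e => hQ y _ _ e)
      (fun y n m L => h y n m L)
    exact ⟨D, hD, fun y p h1 h2 => hD2 y p h1 h2⟩

end Pool.Agent.Results.MP_32d917_al.WorstCaseFromMostPresentations
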